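import Pool.Agent.Results.MP_8ec86e_an.BilinearWGA

/-!
# The Weak Greedy Algorithm for products of functions of one variable

For a weakness sequence `τ` with values in `[0, 1]` the Weak Greedy Algorithm with weakness sequence
`τ` converges for the dictionary of all products `u 1 (x 1) ⋯ u d (x d)` of norm one in
`L₂([0,1]^d)`, `d ≥ 2`, if and only if `τ` does not belong to Temlyakov's class `𝒱`
(`d = 2`: the bilinear dictionary, MP_d1960f_an).

This is a case of a classification for the Hilbert tensor product of finitely many arbitrary real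
Hilbert spaces (in particular for `L₂` of a product of finitely many σ-finite measure spaces) with
the dictionary of all products of norm one:

* at least two factors of infinite dimension: the algorithm converges iff `τ` is not in `𝒱`;
* at most one factor of infinite dimension, and some factor of dimension at least two: the algorithm
  converges if `∑ τ k ^ 2 = ∞`, and for `τ k < 1` only if `∑ τ k ^ 2 = ∞`;
* all factors of dimension one: the algorithm always converges.

The construction for `L₂([0,1]²)` and the sufficiency for all Hilbert spaces and dictionaries are in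
the file `MP_8ec86e_an.BilinearWGA` (theorems `exists_bad_run` and `wga_converges`).
-/

open MeasureTheory Filter Topology
open scoped InnerProductSpace ENNReal

namespace Pool.Agent.Results.MP_d1960f_an.HilbertTensorProducts

open Pool.Agent.Results.MP_8ec86e_an.BilinearWGA (ClassV wga_converges schedule exists_bad_run cnt leb
  hh gg hh_inner hh_tree gg_orthonormal hh_gg)

/-! ## Orthonormal sequences and isometries -/

section seq

variable {E : Type*} [NormedAddCommGroup E] [InnerProductSpace ℝ E] [CompleteSpace E]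

/-- an infinite-dimensional Hilbert space contains an orthonormal sequence -/
lemma exists_orthonormal_seq (hE : ¬ FiniteDimensional ℝ E) : ∃ v : ℕ → E, Orthonormal ℝ v := by
  obtain ⟨w, b, hb⟩ := exists_hilbertBasis ℝ E
  have hinf : Infinite w := by
    by_contra hfin
    rw [not_infinite_iff_finite] at hfin
    have := Fintype.ofFinite w
    exact hE (Module.Basis.finiteDimensional_of_finite (b.toOrthonormalBasis.toBasis))
  exact ⟨fun n => b (Infinite.natEmbedding w n),
    b.orthonormal.comp _ (Infinite.natEmbedding w).injective⟩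

omit [CompleteSpace E] in
lemma countable_of_orthonormal [TopologicalSpace.SeparableSpace E] {ι : Type*} {v : ι → E}
    (hv : Orthonormal ℝ v) : Countable ι := by
  have hd : Pairwise (Function.onFun Disjoint fun i => Metric.ball (v i) (1 / 2)) := by
    intro i j hij
    simp only [Function.onFun]
    apply Metric.ball_disjoint_ball
    have h1 : ‖v i - v j‖ ^ 2 = 2 := by
      rw [norm_sub_sq_real, hv.1 i, hv.1 j, hv.2 hij]
      norm_num
    rw [dist_eq_norm]
    nlinarith [norm_nonneg (v i - v j)]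
  exact hd.countable_of_isOpen_disjoint (fun i => Metric.isOpen_ball)
    (fun i => ⟨v i, Metric.mem_ball_self (by norm_num)⟩)

lemma exists_isometry {F : Type*} [NormedAddCommGroup F] [InnerProductSpace ℝ F] [CompleteSpace F]
    [TopologicalSpace.SeparableSpace F] (hE : ¬ FiniteDimensional ℝ E) :
    ∃ _V : F →ₗᵢ[ℝ] E, True := by
  obtain ⟨v, hv⟩ := exists_orthonormal_seq hE
  obtain ⟨w, b, hb⟩ := exists_hilbertBasis ℝ F
  have hc : Countable w := countable_of_orthonormal b.orthonormal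
  obtain ⟨i, hi⟩ := exists_injective_nat w
  have hv' : Orthonormal ℝ (fun x : w => v (i x)) := hv.comp _ hi
  exact ⟨hv'.orthogonalFamily.linearIsometry.comp b.repr.toLinearIsometry, trivial⟩

end seq

instance separable_leb : TopologicalSpace.SeparableSpace (Lp ℝ 2 leb) := by
  have : Fact ((1:ℝ≥0∞) ≤ 2) := ⟨by norm_num⟩
  have : Fact ((2:ℝ≥0∞) ≠ ∞) := ⟨by norm_num⟩
  have : SFinite leb := by infer_instance
  have : IsSeparable leb := inferInstance
  have : SecondCountableTopology (Lp ℝ 2 leb) := Lp.SecondCountableTopology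
  infer_instance

/-! ## Definitions -/

section defs

variable {H : Type*} [NormedAddCommGroup H] [InnerProductSpace ℝ H]

/-- `r` is the sequence of the residuals `f_m` of a realization of the Weak Greedy Algorithm with
weakness sequence `τ = (τ k)_{k ≥ 1}` and dictionary `D`, applied to `f`. -/
def IsResidualSequence (D : Set H) (τ : ℕ → ℝ) (f : H) (r : ℕ → H) : Prop :=
  r 0 = f ∧ ∀ m : ℕ, ∃ φ ∈ D, τ (m + 1) * (⨆ g : D, |⟪r m, (g : H)⟫_ℝ|) ≤ |⟪r m, φ⟫_ℝ| ∧
    r (m + 1) = r m - ⟪r m, φ⟫_ℝ • φ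

/-- The Weak Greedy Algorithm with weakness sequence `τ` converges for the dictionary `D`: for
every `f` and every realization the residuals tend to `0`. -/
def WGAConverges (D : Set H) (τ : ℕ → ℝ) : Prop :=
  ∀ (f : H) (r : ℕ → H), IsResidualSequence D τ f r → Tendsto (fun m => ‖r m‖) atTop (𝓝 0)

/-- The dictionary of all products of norm one. -/
def products {ι : Type*} {E : ι → Type*} [∀ i, NormedAddCommGroup (E i)]
    [∀ i, InnerProductSpace ℝ (E i)] (T : MultilinearMap ℝ E H) : Set H :=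
  {g | ‖g‖ = 1 ∧ ∃ u, g = T u}

/-- `H`, with the multilinear map `T`, is the Hilbert tensor product of the spaces `E i`. -/
structure IsHilbertTensor {ι : Type*} [Fintype ι] {E : ι → Type*} [∀ i, NormedAddCommGroup (E i)]
    [∀ i, InnerProductSpace ℝ (E i)] (T : MultilinearMap ℝ E H) : Prop where
  /-- inner products of products -/
  inner : ∀ u v, ⟪T u, T v⟫_ℝ = ∏ i, ⟪u i, v i⟫_ℝ
  /-- the products are total -/
  dense : Dense (Submodule.span ℝ (Set.range T) : Set H)

end defs

section generic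

variable {H : Type*} [NormedAddCommGroup H] [InnerProductSpace ℝ H]

lemma greedy_iff (D : Set H) (hD : ∀ g ∈ D, ‖g‖ = 1) (hne : D.Nonempty) (F φ : H) (t : ℝ)
    (ht : 0 ≤ t) : t * (⨆ g : D, |⟪F, (g : H)⟫_ℝ|) ≤ |⟪F, φ⟫_ℝ| ↔
      ∀ g ∈ D, t * |⟪F, g⟫_ℝ| ≤ |⟪F, φ⟫_ℝ| := by
  have hbdd : BddAbove (Set.range (fun g : D => |⟪F, (g : H)⟫_ℝ|)) := by
    refine ⟨‖F‖, ?_⟩
    rintro _ ⟨g, rfl⟩
    have h1 := abs_real_inner_le_norm F (g : H)
    rw [hD g g.2, mul_one] at h1
    exact h1
  constructor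
  · intro h g hg
    refine le_trans ?_ h
    exact mul_le_mul_of_nonneg_left (le_ciSup hbdd ⟨g, hg⟩) ht
  · intro h
    rcases ht.eq_or_lt with h0 | h0
    · rw [← h0, zero_mul]; exact abs_nonneg _
    · have : Nonempty D := hne.to_subtype
      rw [← le_div_iff₀' h0]
      apply ciSup_le
      intro g
      rw [le_div_iff₀' h0]
      exact h g g.2

end generic

section tensor

variable {ι : Type*} [Fintype ι] {E : ι → Type*} [∀ i, NormedAddCommGroup (E i)]
  [∀ i, InnerProductSpace ℝ (E i)]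
  {H : Type*} [NormedAddCommGroup H] [InnerProductSpace ℝ H] {T : MultilinearMap ℝ E H}

lemma norm_sq_T (hT : ∀ u v, ⟪T u, T v⟫_ℝ = ∏ i, ⟪u i, v i⟫_ℝ) (u : ∀ i, E i) :
    ‖T u‖ ^ 2 = ∏ i, ‖u i‖ ^ 2 := by
  rw [← real_inner_self_eq_norm_sq, hT]
  exact Finset.prod_congr rfl (fun i _ => real_inner_self_eq_norm_sq _)

lemma norm_T (hT : ∀ u v, ⟪T u, T v⟫_ℝ = ∏ i, ⟪u i, v i⟫_ℝ) (u : ∀ i, E i) :
    ‖T u‖ = ∏ i, ‖u i‖ := by
  have h1 := norm_sq_T hT u
  rw [Finset.prod_pow] at h1
  exact (pow_left_inj₀ (norm_nonneg _) (Finset.prod_nonneg (fun i _ => norm_nonneg _))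
    two_ne_zero).1 h1

/-- the factors of an element of the dictionary can be chosen of norm one -/
lemma mem_products (hT : ∀ u v, ⟪T u, T v⟫_ℝ = ∏ i, ⟪u i, v i⟫_ℝ) (g : H) :
    g ∈ products T ↔ ∃ u, (∀ i, ‖u i‖ = 1) ∧ g = T u := by
  constructor
  · rintro ⟨h1, u, rfl⟩
    have h2 := norm_T hT u
    rw [h1] at h2
    have h3 : ∀ i, ‖u i‖ ≠ 0 := by
      intro i hi
      rw [Finset.prod_eq_zero (Finset.mem_univ i) hi] at h2
      exact one_ne_zero h2
    refine ⟨fun i => ‖u i‖⁻¹ • u i, fun i => ?_, ?_⟩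
    · rw [norm_smul, norm_inv, norm_norm, inv_mul_cancel₀ (h3 i)]
    · rw [MultilinearMap.map_smul_univ, Finset.prod_inv_distrib, ← h2, inv_one, one_smul]
  · rintro ⟨u, hu, rfl⟩
    refine ⟨?_, u, rfl⟩
    rw [norm_T hT, Finset.prod_congr rfl (fun i _ => hu i), Finset.prod_const_one]

lemma products_nonempty (hT : ∀ u v, ⟪T u, T v⟫_ℝ = ∏ i, ⟪u i, v i⟫_ℝ)
    (hE : ∀ i, Nontrivial (E i)) : (products T).Nonempty := by
  have : ∀ i, ∃ x : E i, ‖x‖ = 1 := fun i => exists_norm_eq (E i) zero_le_one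
  choose x hx using this
  exact ⟨T x, (mem_products hT _).2 ⟨x, hx, rfl⟩⟩

/-- only zero is orthogonal to the dictionary -/
lemma eq_zero_of_inner (h : IsHilbertTensor T) [CompleteSpace H] (x : H)
    (hx : ∀ g ∈ products T, ⟪x, g⟫_ℝ = 0) : x = 0 := by
  have hx' : ∀ u, ⟪x, T u⟫_ℝ = 0 := by
    intro u
    by_cases hu : ∃ i, u i = 0
    · obtain ⟨i, hi⟩ := hu
      rw [T.map_coord_zero i hi, inner_zero_right]
    · push Not at hu
      have h3 : ∀ i, ‖u i‖ ≠ 0 := fun i => norm_ne_zero_iff.2 (hu i)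
      have h4 : T u = (∏ i, ‖u i‖) • T (fun i => ‖u i‖⁻¹ • u i) := by
        rw [← MultilinearMap.map_smul_univ]
        congr 1
        ext i
        rw [smul_smul, mul_inv_cancel₀ (h3 i), one_smul]
      rw [h4, real_inner_smul_right, hx, mul_zero]
      refine (mem_products h.inner _).2 ⟨_, fun i => ?_, rfl⟩
      rw [norm_smul, norm_inv, norm_norm, inv_mul_cancel₀ (h3 i)]
  have hx2 : ∀ y ∈ Submodule.span ℝ (Set.range T), ⟪x, y⟫_ℝ = 0 := by
    intro y hy
    induction hy using Submodule.span_induction with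
    | mem y hy => obtain ⟨u, rfl⟩ := hy; exact hx' u
    | zero => exact inner_zero_right _
    | add a b _ _ ha hb => rw [inner_add_right, ha, hb, add_zero]
    | smul c a _ ha => rw [real_inner_smul_right, ha, mul_zero]
  exact h.dense.eq_zero_of_inner_left (𝕜 := ℝ) hx2

/-- **Sufficiency.** -/
lemma converges_of_not_classV [CompleteSpace H] (h : IsHilbertTensor T)
    (hE : ∀ i, Nontrivial (E i)) (τ : ℕ → ℝ) (hτ0 : ∀ k, 0 ≤ τ (k + 1)) (hV : ¬ ClassV τ) :
    WGAConverges (products T) τ := by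
  rintro f r ⟨h0, hstep⟩
  have h1 : Tendsto r atTop (𝓝 0) := by
    apply wga_converges (products T) (fun g hg => hg.1) (eq_zero_of_inner h) τ hτ0 hV r
    intro m
    obtain ⟨φ, hφ, hgr, hs⟩ := hstep m
    exact ⟨φ, hφ, (greedy_iff _ (fun g hg => hg.1) (products_nonempty h.inner hE) _ _ _
      (hτ0 m)).1 hgr, hs⟩
  simpa using h1.norm

variable [DecidableEq ι]

lemma prod_two {a b : ι} (hab : a ≠ b) (F : ι → ℝ) :
    ∏ i, F i = F a * F b * ∏ i ∈ (Finset.univ.erase a).erase b, F i := by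
  rw [← Finset.mul_prod_erase Finset.univ F (Finset.mem_univ a),
    ← Finset.mul_prod_erase (Finset.univ.erase a) F
      (Finset.mem_erase.2 ⟨hab.symm, Finset.mem_univ b⟩), mul_assoc]

/-- replace the factors number `a` and `b` -/
def put (w : ∀ i, E i) (a b : ι) (x : E a) (y : E b) : ∀ i, E i :=
  Function.update (Function.update w a x) b y

omit [Fintype ι] [∀ i, NormedAddCommGroup (E i)] [∀ i, InnerProductSpace ℝ (E i)] in
lemma put_a (w : ∀ i, E i) {a b : ι} (hab : a ≠ b) (x : E a) (y : E b) : put w a b x y a = x := by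
  unfold put
  rw [Function.update_of_ne hab, Function.update_self]

omit [Fintype ι] [∀ i, NormedAddCommGroup (E i)] [∀ i, InnerProductSpace ℝ (E i)] in
lemma put_b (w : ∀ i, E i) {a b : ι} (x : E a) (y : E b) : put w a b x y b = y := by
  unfold put
  rw [Function.update_self]

omit [Fintype ι] [∀ i, NormedAddCommGroup (E i)] [∀ i, InnerProductSpace ℝ (E i)] in
lemma put_ne (w : ∀ i, E i) {a b : ι} (x : E a) (y : E b) (i : ι) (ha : i ≠ a) (hb : i ≠ b) :
    put w a b x y i = w i := by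
  unfold put
  rw [Function.update_of_ne hb, Function.update_of_ne ha]

lemma inner_put (hT : ∀ u v, ⟪T u, T v⟫_ℝ = ∏ i, ⟪u i, v i⟫_ℝ) (w : ∀ i, E i) {a b : ι}
    (hab : a ≠ b) (x : E a) (y : E b) (g : ∀ i, E i) :
    ⟪T (put w a b x y), T g⟫_ℝ =
      ⟪x, g a⟫_ℝ * ⟪y, g b⟫_ℝ * ∏ i ∈ (Finset.univ.erase a).erase b, ⟪w i, g i⟫_ℝ := by
  rw [hT, prod_two hab, put_a w hab, put_b]
  congr 1
  refine Finset.prod_congr rfl (fun i hi => ?_)
  simp only [Finset.mem_erase, Finset.mem_univ, and_true] at hi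
  rw [put_ne w x y i hi.2 hi.1]

lemma inner_put_put (hT : ∀ u v, ⟪T u, T v⟫_ℝ = ∏ i, ⟪u i, v i⟫_ℝ) (w : ∀ i, E i)
    (hw : ∀ i, ‖w i‖ = 1) {a b : ι}
    (hab : a ≠ b) (x : E a) (y : E b) (x' : E a) (y' : E b) :
    ⟪T (put w a b x y), T (put w a b x' y')⟫_ℝ = ⟪x, x'⟫_ℝ * ⟪y, y'⟫_ℝ := by
  rw [inner_put hT w hab, put_a w hab, put_b, Finset.prod_eq_one, mul_one]
  intro i hi
  simp only [Finset.mem_erase, Finset.mem_univ, and_true] at hi
  rw [put_ne w x' y' i hi.2 hi.1, real_inner_self_eq_norm_sq, hw i, one_pow]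

/-- the closed span of the products with all factors but two fixed -/
noncomputable def K (T : MultilinearMap ℝ E H) (w : ∀ i, E i) (a b : ι) : Submodule ℝ H :=
  (Submodule.span ℝ {z | ∃ x y, z = T (put w a b x y)}).topologicalClosure

omit [Fintype ι] in
lemma mem_K (w : ∀ i, E i) (a b : ι) (x : E a) (y : E b) : T (put w a b x y) ∈ K T w a b :=
  Submodule.le_topologicalClosure _ (Submodule.subset_span ⟨x, y, rfl⟩)

/-- the bilinear map into the closed span -/
noncomputable def T2 (T : MultilinearMap ℝ E H) (w : ∀ i, E i) (a b : ι) (hab : a ≠ b) :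
    E a →ₗ[ℝ] E b →ₗ[ℝ] K T w a b :=
  LinearMap.mk₂ ℝ (fun x y => ⟨T (put w a b x y), mem_K w a b x y⟩)
    (fun x x' y => by
      apply Subtype.ext
      simp only [put, Submodule.coe_add]
      rw [Function.update_comm hab, Function.update_comm hab, Function.update_comm hab,
        T.map_update_add])
    (fun c x y => by
      apply Subtype.ext
      simp only [put, Submodule.coe_smul]
      rw [Function.update_comm hab, Function.update_comm hab, T.map_update_smul])
    (fun x y y' => by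
      apply Subtype.ext
      simp only [put, Submodule.coe_add]
      rw [T.map_update_add])
    (fun c x y => by
      apply Subtype.ext
      simp only [put, Submodule.coe_smul]
      rw [T.map_update_smul])

omit [Fintype ι] in
lemma T2_coe (w : ∀ i, E i) (a b : ι) (hab : a ≠ b) (x : E a) (y : E b) :
    ((T2 T w a b hab x y : K T w a b) : H) = T (put w a b x y) := rfl

/-- in the closed span, products with the fixed factors are the best ones -/
lemma inner_le (hT : ∀ u v, ⟪T u, T v⟫_ℝ = ∏ i, ⟪u i, v i⟫_ℝ) (w : ∀ i, E i)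
    (hw : ∀ i, ‖w i‖ = 1) {a b : ι} (hab : a ≠ b) (g : ∀ i, E i) (hg : ∀ i, ‖g i‖ = 1)
    (x : K T w a b) : |⟪(x : H), T g⟫_ℝ| ≤ |⟪(x : H), T (put w a b (g a) (g b))⟫_ℝ| := by
  set c := ∏ i ∈ (Finset.univ.erase a).erase b, ⟪w i, g i⟫_ℝ with hc
  have hc1 : |c| ≤ 1 := by
    rw [hc, Finset.abs_prod]
    refine Finset.prod_le_one (fun i _ => abs_nonneg _) (fun i _ => ?_)
    refine (abs_real_inner_le_norm _ _).trans ?_
    rw [hw i, hg i, one_mul]
  have key : ⟪(x : H), T g⟫_ℝ = c * ⟪(x : H), T (put w a b (g a) (g b))⟫_ℝ := by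
    have h1 : (x : H) ∈ closure (Submodule.span ℝ {z | ∃ x y, z = T (put w a b x y)} : Set H) := by
      have := x.2
      unfold K at this
      rwa [← SetLike.mem_coe, Submodule.topologicalClosure_coe] at this
    have h2 : IsClosed {z : H | ⟪z, T g⟫_ℝ = c * ⟪z, T (put w a b (g a) (g b))⟫_ℝ} :=
      isClosed_eq (by fun_prop) (by fun_prop)
    refine closure_minimal ?_ h2 h1
    intro z hz
    simp only [Set.mem_ofPred_eq]
    induction hz using Submodule.span_induction with
    | mem y hy =>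
      obtain ⟨p, q, rfl⟩ := hy
      rw [inner_put hT w hab, inner_put_put hT w hw hab]
      ring
    | zero => simp
    | add p q _ _ hp hq => rw [inner_add_left, inner_add_left, hp, hq]; ring
    | smul k p _ hp => rw [real_inner_smul_left, real_inner_smul_left, hp]; ring
  rw [key, abs_mul]
  exact mul_le_of_le_one_left (abs_nonneg _) hc1

end tensor

section nec

variable {ι : Type*} [Fintype ι] [DecidableEq ι] {E : ι → Type*} [∀ i, NormedAddCommGroup (E i)]
  [∀ i, InnerProductSpace ℝ (E i)] [∀ i, CompleteSpace (E i)]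
  {H : Type*} [NormedAddCommGroup H] [InnerProductSpace ℝ H] [CompleteSpace H]
  {T : MultilinearMap ℝ E H}

/-- **Necessity.** -/
lemma not_converges_of_classV (hT : ∀ u v, ⟪T u, T v⟫_ℝ = ∏ i, ⟪u i, v i⟫_ℝ)
    (hE : ∀ i, Nontrivial (E i)) {a b : ι} (hab : a ≠ b) (ha : ¬ FiniteDimensional ℝ (E a))
    (hb : ¬ FiniteDimensional ℝ (E b)) (τ : ℕ → ℝ) (hτ0 : ∀ k, 0 ≤ τ (k + 1))
    (hτ1 : ∀ k, τ (k + 1) ≤ 1) (hV : ClassV τ) : ¬ WGAConverges (products T) τ := by
  intro hconv
  obtain ⟨s₀, Q, N, hQ0, hQm, hN, hslow, hNsum, hsum⟩ := schedule τ hV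
  have hslow' : ∀ p, 2 ^ (s₀ + p + 1) * N p ≤ cnt Q N τ p (Q (p + 1)) := by
    intro p
    refine (hslow p).trans (le_of_eq ?_)
    unfold cnt
    congr
  have : ∀ i, ∃ x : E i, ‖x‖ = 1 := fun i => exists_norm_eq (E i) zero_le_one
  choose w hw using this
  obtain ⟨v, hv⟩ := exists_orthonormal_seq ha
  obtain ⟨V, -⟩ := exists_isometry (F := Lp ℝ 2 leb) hb
  have hT2 : ∀ u v u' v', ⟪T2 T w a b hab u v, T2 T w a b hab u' v'⟫_ℝ = ⟪u, u'⟫_ℝ * ⟪v, v'⟫_ℝ := by
    intro u v u' v'
    rw [Submodule.coe_inner, T2_coe, T2_coe]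
    exact inner_put_put hT w hw hab u v u' v'
  have he : Orthonormal ℝ (Sum.elim
      (fun p : ℕ × ℕ => v (Encodable.encode (Sum.inl (p.1, p.2) : (ℕ × ℕ) ⊕ ℕ)))
      (fun l => v (Encodable.encode (Sum.inr l : (ℕ × ℕ) ⊕ ℕ)))) := by
    have h1 : (Sum.elim
      (fun p : ℕ × ℕ => v (Encodable.encode (Sum.inl (p.1, p.2) : (ℕ × ℕ) ⊕ ℕ)))
      (fun l => v (Encodable.encode (Sum.inr l : (ℕ × ℕ) ⊕ ℕ)))) =
        v ∘ (fun x : (ℕ × ℕ) ⊕ ℕ => Encodable.encode x) := by
      ext x
      rcases x with p | l <;> rfl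
    rw [h1]
    exact hv.comp _ Encodable.encode_injective
  have : CompleteSpace (K T w a b) := (Submodule.isClosed_topologicalClosure _).completeSpace_coe
  obtain ⟨f, hf, hnorm⟩ := exists_bad_run (T2 T w a b hab) hT2
    (fun s i => v (Encodable.encode (Sum.inl (s, i) : (ℕ × ℕ) ⊕ ℕ)))
    (fun l => v (Encodable.encode (Sum.inr l : (ℕ × ℕ) ⊕ ℕ))) he
    (fun s i => V (hh s i)) (fun l => V (gg l))
    (fun s i hi j hj => by rw [LinearIsometry.inner_map_map]; exact hh_inner s i hi j hj)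
    (fun s i _ => by rw [← map_add, ← hh_tree s i]) (gg_orthonormal.comp_linearIsometry V)
    (fun s i hi l => by rw [LinearIsometry.inner_map_map]; exact hh_gg s i hi l)
    τ hτ0 hτ1 s₀ Q N hQ0 hQm hN hslow' hNsum hsum
  have hne := products_nonempty hT hE
  have hres : IsResidualSequence (products T) τ (f 0 : H) (fun k => (f k : H)) := by
    refine ⟨rfl, fun m => ?_⟩
    obtain ⟨x, y, hx, hy, hgr, hstep⟩ := hf m
    have hin : ∀ (z : K T w a b) (x : E a) (y : E b),
        ⟪z, T2 T w a b hab x y⟫_ℝ = ⟪(z : H), T (put w a b x y)⟫_ℝ := fun z x y => rfl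
    refine ⟨T (put w a b x y), (mem_products hT _).2 ⟨_, fun i => ?_, rfl⟩, ?_, ?_⟩
    · by_cases h1 : i = a
      · subst h1; rw [put_a w hab, hx]
      · by_cases h2 : i = b
        · subst h2; rw [put_b, hy]
        · rw [put_ne w x y i h1 h2, hw]
    · rw [greedy_iff _ (fun g hg => hg.1) hne _ _ _ (hτ0 m)]
      intro g hg
      obtain ⟨u, hu, rfl⟩ := (mem_products hT g).1 hg
      have h1 := inner_le hT w hw hab u hu (f m)
      have h2 := hgr (u a) (u b) (hu a) (hu b)
      rw [hin, hin] at h2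
      exact (mul_le_mul_of_nonneg_left h1 (hτ0 m)).trans h2
    · exact congrArg (fun z : K T w a b => (z : H)) hstep
  have h1 := hconv _ _ hres
  have h3 := h1.pow 2
  rw [zero_pow two_ne_zero] at h3
  have h4 := ge_of_tendsto' h3 (fun k => hnorm k)
  norm_num at h4

end nec

/-! ## At most one infinite-dimensional factor -/

section finite

lemma exists_frame (E : Type*) [NormedAddCommGroup E] [InnerProductSpace ℝ E]
    [FiniteDimensional ℝ E] : ∃ (N : ℕ) (c : ℕ → E),
      (∀ j < N, ∀ k < N, ⟪c j, c k⟫_ℝ = if j = k then 1 else 0) ∧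
      ∀ x : E, ∑ j ∈ Finset.range N, ⟪c j, x⟫_ℝ • c j = x := by
  set b := stdOrthonormalBasis ℝ E with hb
  refine ⟨Module.finrank ℝ E, fun j => if h : j < Module.finrank ℝ E then b ⟨j, h⟩ else 0, ?_, ?_⟩
  · intro j hj k hk
    simp only [hj, hk, dif_pos]
    rw [orthonormal_iff_ite.1 b.orthonormal]
    simp [Fin.ext_iff]
  · intro x
    rw [Finset.sum_range]
    simp only [Fin.is_lt, dif_pos, Fin.eta]
    exact b.sum_repr' x

variable {ι : Type*} [Fintype ι] {E : ι → Type*} [∀ i, NormedAddCommGroup (E i)]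
  [∀ i, InnerProductSpace ℝ (E i)] [∀ i, CompleteSpace (E i)]
  {H : Type*} [NormedAddCommGroup H] [InnerProductSpace ℝ H] [CompleteSpace H]
  {T : MultilinearMap ℝ E H}

omit [∀ i, CompleteSpace (E i)] [CompleteSpace H] in
lemma inner_update' [DecidableEq ι] (hT : ∀ u v, ⟪T u, T v⟫_ℝ = ∏ i, ⟪u i, v i⟫_ℝ)
    (u v : ∀ i, E i) (i : ι) (x y : E i) :
    ⟪T (Function.update u i x), T (Function.update v i y)⟫_ℝ =
      ⟪x, y⟫_ℝ * ∏ j ∈ Finset.univ.erase i, ⟪u j, v j⟫_ℝ := by
  rw [hT, ← Finset.mul_prod_erase Finset.univ _ (Finset.mem_univ i), Function.update_self,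
    Function.update_self]
  congr 1
  refine Finset.prod_congr rfl (fun j hj => ?_)
  rw [Function.update_of_ne (Finset.ne_of_mem_erase hj),
    Function.update_of_ne (Finset.ne_of_mem_erase hj)]

/-- the norm is bounded by the supremum over the dictionary -/
lemma norm_le_sup (h : IsHilbertTensor T) (hE : ∀ i, Nontrivial (E i)) (a : ι)
    (hfin : ∀ i, i ≠ a → FiniteDimensional ℝ (E i)) :
    ∃ C : ℝ, 0 < C ∧ ∀ (x : H) (S : ℝ), 0 ≤ S → (∀ g ∈ products T, |⟪x, g⟫_ℝ| ≤ S) →
      ‖x‖ ^ 2 ≤ C * S ^ 2 := by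
  classical
  have hT := h.inner
  have hw : ∀ i, ∃ x : E i, ‖x‖ = 1 := fun i => exists_norm_eq (E i) zero_le_one
  have hfr : ∀ i, ∃ (N : ℕ) (c : ℕ → E i),
      (∀ j < N, ∀ k < N, ⟪c j, c k⟫_ℝ = if j = k then 1 else 0) ∧
      (i ≠ a → ∀ x : E i, ∑ j ∈ Finset.range N, ⟪c j, x⟫_ℝ • c j = x) ∧ (i = a → N = 1) := by
    intro i
    by_cases hi : i = a
    · obtain ⟨x, hx⟩ := hw i
      refine ⟨1, fun _ => x, ?_, fun h => absurd hi h, fun _ => rfl⟩
      intro j hj k hk
      have : j = k := by omega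
      rw [if_pos this, real_inner_self_eq_norm_sq, hx, one_pow]
    · have := hfin i hi
      obtain ⟨N, c, h1, h2⟩ := exists_frame (E i)
      exact ⟨N, c, h1, fun _ => h2, fun h => absurd h hi⟩
  choose N c hc1 hc2 hN using hfr
  set J := Fintype.piFinset (fun i => Finset.range (N i)) with hJ
  have hJm : ∀ r ∈ J, ∀ i, r i < N i := fun r hr i =>
    Finset.mem_range.1 (Fintype.mem_piFinset.1 hr i)
  -- the isometries
  have hV : ∀ r ∈ J, ∀ y y' : E a, ⟪T (Function.update (fun i => c i (r i)) a y),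
      T (Function.update (fun i => c i (r i)) a y')⟫_ℝ = ⟪y, y'⟫_ℝ := by
    intro r hr y y'
    rw [inner_update' hT, Finset.prod_eq_one, mul_one]
    intro i _
    rw [hc1 i _ (hJm r hr i) _ (hJm r hr i), if_pos rfl]
  have hVo : ∀ r ∈ J, ∀ r' ∈ J, r ≠ r' → ∀ y y' : E a,
      ⟪T (Function.update (fun i => c i (r i)) a y),
        T (Function.update (fun i => c i (r' i)) a y')⟫_ℝ = 0 := by
    intro r hr r' hr' hne y y'
    obtain ⟨i, hi⟩ := Function.ne_iff.1 hne
    have hia : i ≠ a := by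
      intro h
      have h1 := hJm r hr i
      have h2 := hJm r' hr' i
      rw [hN i h] at h1 h2
      exact hi (by omega)
    rw [inner_update' hT, Finset.prod_eq_zero (Finset.mem_erase.2 ⟨hia, Finset.mem_univ i⟩),
      mul_zero]
    rw [hc1 i _ (hJm r hr i) _ (hJm r' hr' i), if_neg hi]
  -- Riesz vectors
  have hR : ∀ (x : H) (r : ι → ℕ), r ∈ J → ∃ z : E a, ∀ y : E a,
      ⟪x, T (Function.update (fun i => c i (r i)) a y)⟫_ℝ = ⟪z, y⟫_ℝ := by
    intro x r hr
    let L : E a →ₗ[ℝ] H := T.toLinearMap (fun i => c i (r i)) a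
    have hL : ∀ y, ‖L y‖ = ‖y‖ := by
      intro y
      have h1 : ‖L y‖ ^ 2 = ‖y‖ ^ 2 := by
        rw [← real_inner_self_eq_norm_sq, ← real_inner_self_eq_norm_sq]
        exact hV r hr y y
      exact (pow_left_inj₀ (norm_nonneg _) (norm_nonneg _) two_ne_zero).1 h1
    let V : E a →ₗᵢ[ℝ] H := ⟨L, hL⟩
    refine ⟨ContinuousLinearMap.adjoint V.toContinuousLinearMap x, fun y => ?_⟩
    rw [ContinuousLinearMap.adjoint_inner_left]
    rfl
  have hsum : ∀ u : ∀ i, E i, T u = ∑ r ∈ J,
      (∏ i, if i = a then (1 : ℝ) else ⟪c i (r i), u i⟫_ℝ) •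
        T (Function.update (fun i => c i (r i)) a (u a)) := by
    intro u
    have h1 : u = fun i => ∑ j ∈ Finset.range (N i),
        if i = a then u i else ⟪c i j, u i⟫_ℝ • c i j := by
      ext i
      by_cases hi : i = a
      · simp only [hi, if_true]
        subst hi
        rw [hN i rfl]
        simp
      · simp only [hi, if_false]
        rw [hc2 i hi]
    conv_lhs => rw [h1]
    rw [MultilinearMap.map_sum_finset]
    refine Finset.sum_congr rfl (fun r _ => ?_)
    rw [← MultilinearMap.map_smul_univ]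
    congr 1
    ext i
    by_cases hi : i = a
    · subst hi
      rw [if_pos rfl, if_pos rfl, one_smul, Function.update_self]
    · rw [if_neg hi, if_neg hi, Function.update_of_ne hi]
  refine ⟨(J.card : ℝ) + 1, Nat.cast_add_one_pos J.card, fun x S hS hx => ?_⟩
  have hR' : ∀ r : ι → ℕ, ∃ z : E a, r ∈ J → ∀ y : E a,
      ⟪x, T (Function.update (fun i => c i (r i)) a y)⟫_ℝ = ⟪z, y⟫_ℝ := by
    intro r
    by_cases hr : r ∈ J
    · obtain ⟨z, hz⟩ := hR x r hr
      exact ⟨z, fun _ => hz⟩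
    · exact ⟨0, fun h => absurd h hr⟩
  choose A hA using hR'
  have hx0 : x - ∑ r ∈ J, T (Function.update (fun i => c i (r i)) a (A r)) = 0 := by
    apply eq_zero_of_inner h
    rintro g ⟨-, u, rfl⟩
    rw [hsum u, inner_sum]
    refine Finset.sum_eq_zero (fun r hr => ?_)
    rw [real_inner_smul_right, inner_sub_left, hA r hr, sum_inner, Finset.sum_eq_single r,
      hV r hr, sub_self, mul_zero]
    · intro r' hr' hne
      exact hVo r' hr' r hr hne _ _
    · exact fun h => absurd hr h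
  have hx1 : x = ∑ r ∈ J, T (Function.update (fun i => c i (r i)) a (A r)) := sub_eq_zero.1 hx0
  have hx2 : ‖x‖ ^ 2 = ∑ r ∈ J, ‖A r‖ ^ 2 := by
    have h1 : ⟪x, x⟫_ℝ = ⟪x, ∑ r ∈ J, T (Function.update (fun i => c i (r i)) a (A r))⟫_ℝ := by
      rw [← hx1]
    rw [← real_inner_self_eq_norm_sq, h1, inner_sum]
    refine Finset.sum_congr rfl (fun r hr => ?_)
    rw [hA r hr, real_inner_self_eq_norm_sq]
  have hAS : ∀ r ∈ J, ‖A r‖ ≤ S := by
    intro r hr
    by_cases h0 : A r = 0
    · rw [h0, norm_zero]; exact hS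
    · have h1 : ‖A r‖ ≠ 0 := norm_ne_zero_iff.2 h0
      have h2 := hx (T (Function.update (fun i => c i (r i)) a (‖A r‖⁻¹ • A r))) ⟨?_, _, rfl⟩
      · rw [hA r hr, real_inner_smul_right, real_inner_self_eq_norm_sq, pow_two, ← mul_assoc,
          inv_mul_cancel₀ h1, one_mul, abs_norm] at h2
        exact h2
      · have h3 : ‖T (Function.update (fun i => c i (r i)) a (‖A r‖⁻¹ • A r))‖ ^ 2 = 1 := by
          rw [← real_inner_self_eq_norm_sq, hV r hr, real_inner_self_eq_norm_sq, norm_smul,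
            norm_inv, norm_norm, inv_mul_cancel₀ h1, one_pow]
        nlinarith [norm_nonneg (T (Function.update (fun i => c i (r i)) a (‖A r‖⁻¹ • A r)))]
  rw [hx2]
  calc ∑ r ∈ J, ‖A r‖ ^ 2 ≤ ∑ _r ∈ J, S ^ 2 :=
        Finset.sum_le_sum (fun r hr => pow_le_pow_left₀ (norm_nonneg _) (hAS r hr) 2)
    _ = J.card * S ^ 2 := by rw [Finset.sum_const, nsmul_eq_mul]
    _ ≤ (J.card + 1) * S ^ 2 := by nlinarith [sq_nonneg S]

omit [CompleteSpace H] in
lemma norm_step (x φ : H) (hφ : ‖φ‖ = 1) :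
    ‖x - ⟪x, φ⟫_ℝ • φ‖ ^ 2 = ‖x‖ ^ 2 - ⟪x, φ⟫_ℝ ^ 2 := by
  rw [norm_sub_sq_real, norm_smul, inner_smul_right, hφ]
  simp only [Real.norm_eq_abs, mul_one, sq_abs]
  ring

/-- **At most one infinite-dimensional factor, sufficiency.** -/
lemma converges_of_not_summable (h : IsHilbertTensor T) (hE : ∀ i, Nontrivial (E i)) (a : ι)
    (hfin : ∀ i, i ≠ a → FiniteDimensional ℝ (E i)) (τ : ℕ → ℝ) (hτ0 : ∀ k, 0 ≤ τ (k + 1))
    (hs : ¬ Summable (fun k => τ (k + 1) ^ 2)) : WGAConverges (products T) τ := by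
  rintro f r ⟨h0, hstep⟩
  obtain ⟨C, hC, hb⟩ := norm_le_sup h hE a hfin
  have hne := products_nonempty h.inner hE
  have hdec : ∀ m, τ (m + 1) ^ 2 * ‖r m‖ ^ 2 ≤ C * (‖r m‖ ^ 2 - ‖r (m + 1)‖ ^ 2) := by
    intro m
    obtain ⟨φ, hφ, hgr, hs'⟩ := hstep m
    rw [greedy_iff _ (fun g hg => hg.1) hne _ _ _ (hτ0 m)] at hgr
    rw [hs', norm_step _ _ hφ.1]
    rcases (hτ0 m).eq_or_lt with h1 | h1
    · rw [← h1]
      nlinarith [sq_nonneg ⟪r m, φ⟫_ℝ]
    · have h2 := hb (r m) (|⟪r m, φ⟫_ℝ| / τ (m + 1)) (by positivity) (fun g hg => by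
        rw [le_div_iff₀' h1]; exact hgr g hg)
      rw [div_pow, sq_abs] at h2
      have h3 : τ (m + 1) ^ 2 * (C * (⟪r m, φ⟫_ℝ ^ 2 / τ (m + 1) ^ 2)) = C * ⟪r m, φ⟫_ℝ ^ 2 := by
        field_simp
      nlinarith [mul_le_mul_of_nonneg_left h2 (sq_nonneg (τ (m + 1)))]
  have hanti1 : ∀ m, ‖r (m + 1)‖ ^ 2 ≤ ‖r m‖ ^ 2 := by
    intro m
    have h1 := hdec m
    have h2 : 0 ≤ τ (m + 1) ^ 2 * ‖r m‖ ^ 2 := by positivity
    nlinarith
  have hanti : Antitone (fun m => ‖r m‖ ^ 2) := antitone_nat_of_succ_le hanti1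
  by_contra hnot
  rw [Metric.tendsto_atTop] at hnot
  push Not at hnot
  obtain ⟨ε, hε, hN⟩ := hnot
  have hlow : ∀ m, ε ^ 2 ≤ ‖r m‖ ^ 2 := by
    intro m
    obtain ⟨n, hn, h1⟩ := hN m
    rw [dist_zero_right, norm_norm] at h1
    exact (pow_le_pow_left₀ hε.le h1 2).trans (hanti hn)
  apply hs
  refine summable_of_sum_range_le (c := C * ‖r 0‖ ^ 2 / ε ^ 2) (fun k => sq_nonneg _) (fun n => ?_)
  rw [le_div_iff₀ (by positivity), Finset.sum_mul]
  have h1 : ∀ n, ∑ i ∈ Finset.range n, τ (i + 1) ^ 2 * ε ^ 2 ≤ C * (‖r 0‖ ^ 2 - ‖r n‖ ^ 2) := by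
    intro n
    induction n with
    | zero => simp
    | succ n ih =>
      rw [Finset.sum_range_succ]
      have h2 := hdec n
      have h3 := mul_le_mul_of_nonneg_left (hlow n) (sq_nonneg (τ (n + 1)))
      nlinarith
  have h2 := h1 n
  have h3 : 0 ≤ C * ‖r n‖ ^ 2 := by positivity
  nlinarith

/-- partial products of `1 - a k` stay away from zero -/
lemma prod_lower (a : ℕ → ℝ) (h0 : ∀ k, 0 ≤ a k) (h1 : ∀ k, a k < 1) (hs : Summable a) :
    ∃ c : ℝ, 0 < c ∧ ∀ n, c ≤ ∏ k ∈ Finset.range n, (1 - a k) := by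
  obtain ⟨N, hN⟩ : ∃ N, ∀ n, N ≤ n → ∑ k ∈ Finset.Ico N n, a k ≤ 1 / 2 := by
    have h2 := (hs.hasSum.tendsto_sum_nat.cauchySeq)
    rw [Metric.cauchySeq_iff'] at h2
    obtain ⟨N, hN⟩ := h2 (1 / 2) (by norm_num)
    refine ⟨N, fun n hn => ?_⟩
    have h3 := hN n hn
    rw [Real.dist_eq, ← Finset.sum_Ico_eq_sub _ hn] at h3
    exact (le_abs_self _).trans h3.le
  have hpos : ∀ n, 0 < ∏ k ∈ Finset.range n, (1 - a k) := fun n =>
    Finset.prod_pos (fun k _ => by linarith [h1 k])
  have hanti : Antitone (fun n => ∏ k ∈ Finset.range n, (1 - a k)) := by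
    apply antitone_nat_of_succ_le
    intro n
    rw [Finset.prod_range_succ]
    exact mul_le_of_le_one_right (hpos n).le (by linarith [h0 n])
  refine ⟨(∏ k ∈ Finset.range N, (1 - a k)) * (1 / 2), mul_pos (hpos N) (by norm_num), fun n => ?_⟩
  rcases le_total n N with hn | hn
  · refine le_trans ?_ (hanti hn)
    have := (hpos N).le
    linarith
  · have key : ∀ n, N ≤ n → (∏ k ∈ Finset.range N, (1 - a k)) * (1 - ∑ k ∈ Finset.Ico N n, a k) ≤
        ∏ k ∈ Finset.range n, (1 - a k) := by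
      intro n hn
      induction n, hn using Nat.le_induction with
      | base => simp
      | succ n hn ih =>
        rw [Finset.prod_range_succ, Finset.sum_Ico_succ_top hn]
        have h3 : 0 ≤ ∑ k ∈ Finset.Ico N n, a k := Finset.sum_nonneg (fun k _ => h0 k)
        have h4 := mul_le_mul_of_nonneg_right ih (by linarith [h1 n] : (0 : ℝ) ≤ 1 - a n)
        have h5 := mul_nonneg (mul_nonneg (hpos N).le h3) (h0 n)
        nlinarith
    refine le_trans ?_ (key n hn)
    exact mul_le_mul_of_nonneg_left (by linarith [hN n hn]) (hpos N).le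

lemma exists_unit {E : Type*} [NormedAddCommGroup E] [InnerProductSpace ℝ E]
    (hE : Module.finrank ℝ E ≠ 1) (x : E) (hx : x ≠ 0) (t : ℝ) (h0 : 0 ≤ t) (h1 : t < 1) :
    ∃ u : E, ‖u‖ = 1 ∧ |⟪x, u⟫_ℝ| = t * ‖x‖ := by
  have hxn : ‖x‖ ≠ 0 := norm_ne_zero_iff.2 hx
  obtain ⟨y, hy, hxy⟩ : ∃ y : E, ‖y‖ = 1 ∧ ⟪x, y⟫_ℝ = 0 := by
    by_contra hno
    push Not at hno
    apply hE
    apply finrank_eq_one x hx
    intro w
    refine ⟨⟪x, w⟫_ℝ / ‖x‖ ^ 2, ?_⟩
    by_contra hne
    have hz : w - (⟪x, w⟫_ℝ / ‖x‖ ^ 2) • x ≠ 0 := by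
      intro h
      exact hne (sub_eq_zero.1 h).symm
    have hzn := norm_ne_zero_iff.2 hz
    refine hno (‖w - (⟪x, w⟫_ℝ / ‖x‖ ^ 2) • x‖⁻¹ • (w - (⟪x, w⟫_ℝ / ‖x‖ ^ 2) • x)) ?_ ?_
    · rw [norm_smul, norm_inv, norm_norm, inv_mul_cancel₀ hzn]
    · rw [real_inner_smul_right, inner_sub_right, real_inner_smul_right,
        real_inner_self_eq_norm_sq, div_mul_cancel₀ _ (pow_ne_zero 2 hxn), sub_self, mul_zero]
  refine ⟨(t / ‖x‖) • x + Real.sqrt (1 - t ^ 2) • y, ?_, ?_⟩
  · have h2 : ‖(t / ‖x‖) • x + Real.sqrt (1 - t ^ 2) • y‖ ^ 2 = 1 := by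
      rw [norm_add_sq_real, norm_smul, norm_smul, real_inner_smul_left, real_inner_smul_right, hxy,
        hy, Real.norm_eq_abs, Real.norm_eq_abs, mul_pow, mul_pow, sq_abs, sq_abs, Real.sq_sqrt
        (by nlinarith), div_pow, div_mul_cancel₀ _ (pow_ne_zero 2 hxn)]
      ring
    nlinarith [norm_nonneg ((t / ‖x‖) • x + Real.sqrt (1 - t ^ 2) • y)]
  · rw [inner_add_right, real_inner_smul_right, real_inner_smul_right, hxy, mul_zero, add_zero,
      real_inner_self_eq_norm_sq]
    have h2 : t / ‖x‖ * ‖x‖ ^ 2 = t * ‖x‖ := by field_simp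
    rw [h2, abs_of_nonneg (by positivity)]

omit [∀ i, CompleteSpace (E i)] [CompleteSpace H] in
/-- **Necessity for sequences in `[0, 1)`, any factors.** -/
lemma not_converges_of_summable (hT : ∀ u v, ⟪T u, T v⟫_ℝ = ∏ i, ⟪u i, v i⟫_ℝ)
    (hE : ∀ i, Nontrivial (E i)) (b : ι) (hb : Module.finrank ℝ (E b) ≠ 1) (τ : ℕ → ℝ)
    (hτ0 : ∀ k, 0 ≤ τ (k + 1)) (hτ1 : ∀ k, τ (k + 1) < 1)
    (hs : Summable (fun k => τ (k + 1) ^ 2)) : ¬ WGAConverges (products T) τ := by
  classical
  intro hconv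
  have : ∀ i, ∃ x : E i, ‖x‖ = 1 := fun i => exists_norm_eq (E i) zero_le_one
  choose w hw using this
  have hex : ∀ (x : {x : E b // x ≠ 0}) (m : ℕ), ∃ u : E b, ‖u‖ = 1 ∧
      |⟪(x : E b), u⟫_ℝ| = τ (m + 1) * ‖(x : E b)‖ := fun x m =>
    exists_unit hb x x.2 _ (hτ0 m) (hτ1 m)
  choose U hU1 hU2 using hex
  have hn : ∀ (x : {x : E b // x ≠ 0}) (m : ℕ),
      ‖(x : E b) - ⟪(x : E b), U x m⟫_ℝ • U x m‖ ^ 2 = ‖(x : E b)‖ ^ 2 * (1 - τ (m + 1) ^ 2) := by
    intro x m
    rw [norm_step _ _ (hU1 x m), ← sq_abs ⟪(x : E b), U x m⟫_ℝ, hU2]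
    ring
  have hne : ∀ (x : {x : E b // x ≠ 0}) (m : ℕ), (x : E b) - ⟪(x : E b), U x m⟫_ℝ • U x m ≠ 0 := by
    intro x m h0
    have h1 := hn x m
    rw [h0, norm_zero, zero_pow two_ne_zero] at h1
    have h2 : 0 < ‖(x : E b)‖ := norm_pos_iff.2 x.2
    have h3 : 0 < 1 - τ (m + 1) ^ 2 := by nlinarith [hτ0 m, hτ1 m]
    have h4 : 0 < ‖(x : E b)‖ ^ 2 * (1 - τ (m + 1) ^ 2) := by positivity
    linarith
  have hwb : w b ≠ 0 := by
    intro h0
    have := hw b
    rw [h0, norm_zero] at this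
    exact zero_ne_one this
  let X : ℕ → {x : E b // x ≠ 0} := fun m => Nat.rec ⟨w b, hwb⟩
    (fun m x => ⟨(x : E b) - ⟪(x : E b), U x m⟫_ℝ • U x m, hne x m⟩) m
  have hX : ∀ m, (X (m + 1)).1 = (X m).1 - ⟪(X m).1, U (X m) m⟫_ℝ • U (X m) m := fun m => rfl
  have hX0 : (X 0).1 = w b := rfl
  have hin : ∀ x y : E b, ⟪T (Function.update w b x), T (Function.update w b y)⟫_ℝ = ⟪x, y⟫_ℝ := by
    intro x y
    rw [hT, ← Finset.mul_prod_erase Finset.univ _ (Finset.mem_univ b), Function.update_self,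
      Function.update_self, Finset.prod_eq_one, mul_one]
    intro j hj
    rw [Function.update_of_ne (Finset.ne_of_mem_erase hj),
      Function.update_of_ne (Finset.ne_of_mem_erase hj), real_inner_self_eq_norm_sq, hw, one_pow]
  have hnT : ∀ x : E b, ‖T (Function.update w b x)‖ = ‖x‖ := by
    intro x
    have h1 : ‖T (Function.update w b x)‖ ^ 2 = ‖x‖ ^ 2 := by
      rw [← real_inner_self_eq_norm_sq, ← real_inner_self_eq_norm_sq, hin]
    exact (pow_left_inj₀ (norm_nonneg _) (norm_nonneg _) two_ne_zero).1 h1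
  have hres : IsResidualSequence (products T) τ (T (Function.update w b (X 0).1))
      (fun m => T (Function.update w b (X m).1)) := by
    refine ⟨rfl, fun m => ⟨T (Function.update w b (U (X m) m)), ⟨?_, _, rfl⟩, ?_, ?_⟩⟩
    · rw [hnT, hU1]
    · rw [greedy_iff _ (fun g hg => hg.1) (products_nonempty hT hE) _ _ _ (hτ0 m), hin, hU2]
      intro g hg
      refine mul_le_mul_of_nonneg_left ?_ (hτ0 m)
      refine (abs_real_inner_le_norm _ _).trans ?_
      rw [hg.1, mul_one, hnT]
    · rw [hin]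
      simp only
      rw [hX m, T.map_update_sub, T.map_update_smul]
  have h1 := hconv _ _ hres
  obtain ⟨c, hc, hlow⟩ := prod_lower (fun k => τ (k + 1) ^ 2) (fun k => sq_nonneg _)
    (fun k => by nlinarith [hτ0 k, hτ1 k]) hs
  have hXn : ∀ m, ‖(X m).1‖ ^ 2 = ∏ k ∈ Finset.range m, (1 - τ (k + 1) ^ 2) := by
    intro m
    induction m with
    | zero => rw [hX0, hw]; simp
    | succ m ih => rw [hX m, hn, ih, Finset.prod_range_succ]
  have h3 := h1.pow 2
  rw [zero_pow two_ne_zero] at h3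
  have h4 := ge_of_tendsto' h3 (fun k => by
    rw [hnT, hXn]; exact hlow k)
  linarith

end finite

section L2

variable {ι : Type*} [Fintype ι] {Ω : ι → Type*} [∀ i, MeasurableSpace (Ω i)]
  (μ : ∀ i, Measure (Ω i)) [∀ i, SigmaFinite (μ i)]

lemma memLp_tensor (u : ∀ i, Lp ℝ 2 (μ i)) :
    MemLp (fun x : ∀ i, Ω i => ∏ i, u i (x i)) 2 (Measure.pi μ) := by
  have hm : AEStronglyMeasurable (fun x : ∀ i, Ω i => ∏ i, u i (x i)) (Measure.pi μ) := by
    apply Finset.aestronglyMeasurable_fun_prod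
    intro i _
    exact (Lp.aestronglyMeasurable (u i)).comp_quasiMeasurePreserving
      (Measure.quasiMeasurePreserving_eval μ i)
  rw [memLp_two_iff_integrable_sq hm]
  have h1 : ∀ i, Integrable (fun x => u i x ^ 2) (μ i) := fun i => (memLp_two_iff_integrable_sq
    (Lp.aestronglyMeasurable (u i))).1 (Lp.memLp (u i))
  have h3 := Integrable.fintype_prod_dep h1
  simpa only [Finset.prod_pow] using h3

/-- the product function -/
noncomputable def tens (u : ∀ i, Lp ℝ 2 (μ i)) : Lp ℝ 2 (Measure.pi μ) := (memLp_tensor μ u).toLp _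

lemma tens_coe (u : ∀ i, Lp ℝ 2 (μ i)) :
    tens μ u =ᵐ[Measure.pi μ] fun x => ∏ i, u i (x i) := MemLp.coeFn_toLp _

lemma inner_tens (u v : ∀ i, Lp ℝ 2 (μ i)) : ⟪tens μ u, tens μ v⟫_ℝ = ∏ i, ⟪u i, v i⟫_ℝ := by
  simp only [L2.inner_def]
  rw [← integral_fintype_prod_eq_prod (fun i x => ⟪u i x, v i x⟫_ℝ)]
  apply integral_congr_ae
  filter_upwards [tens_coe μ u, tens_coe μ v] with p h1 h2
  rw [h1, h2]
  simp only [RCLike.inner_apply, conj_trivial]
  rw [Finset.prod_mul_distrib]

end L2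

section mk

variable {ι : Type*} [Fintype ι] {E : ι → Type*} [∀ i, NormedAddCommGroup (E i)]
  [∀ i, InnerProductSpace ℝ (E i)]
  {H : Type*} [NormedAddCommGroup H] [InnerProductSpace ℝ H]

lemma inner_update [DecidableEq ι] (t : (∀ i, E i) → H)
    (ht : ∀ u v, ⟪t u, t v⟫_ℝ = ∏ i, ⟪u i, v i⟫_ℝ)
    (u : ∀ i, E i) (i : ι) (x : E i) (v : ∀ i, E i) :
    ⟪t (Function.update u i x), t v⟫_ℝ = ⟪x, v i⟫_ℝ * ∏ j ∈ Finset.univ.erase i, ⟪u j, v j⟫_ℝ := by
  rw [ht, ← Finset.mul_prod_erase Finset.univ _ (Finset.mem_univ i), Function.update_self]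
  congr 1
  refine Finset.prod_congr rfl (fun j hj => ?_)
  rw [Function.update_of_ne (Finset.ne_of_mem_erase hj)]

/-- a map with the inner products of a tensor product is multilinear -/
noncomputable def mkMulti (t : (∀ i, E i) → H) (ht : ∀ u v, ⟪t u, t v⟫_ℝ = ∏ i, ⟪u i, v i⟫_ℝ) :
    MultilinearMap ℝ E H where
  toFun := t
  map_update_add' := by
    intro _ u i x y
    have h : ∀ v, ⟪t (Function.update u i (x + y)) - t (Function.update u i x) -
        t (Function.update u i y), t v⟫_ℝ = 0 := by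
      intro v
      rw [inner_sub_left, inner_sub_left, inner_update t ht, inner_update t ht, inner_update t ht,
        inner_add_left]
      ring
    have h2 : ⟪t (Function.update u i (x + y)) - t (Function.update u i x) -
        t (Function.update u i y), t (Function.update u i (x + y)) - t (Function.update u i x) -
        t (Function.update u i y)⟫_ℝ = 0 := by
      rw [inner_sub_right, inner_sub_right, h, h, h]
      ring
    have h3 := inner_self_eq_zero.1 h2
    rw [sub_sub, sub_eq_zero] at h3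
    exact h3
  map_update_smul' := by
    intro _ u i c x
    have h : ∀ v, ⟪t (Function.update u i (c • x)) - c • t (Function.update u i x), t v⟫_ℝ = 0 := by
      intro v
      rw [inner_sub_left, real_inner_smul_left, inner_update t ht, inner_update t ht,
        real_inner_smul_left]
      ring
    have h2 : ⟪t (Function.update u i (c • x)) - c • t (Function.update u i x),
        t (Function.update u i (c • x)) - c • t (Function.update u i x)⟫_ℝ = 0 := by
      rw [inner_sub_right, real_inner_smul_right, h, h]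
      ring
    exact sub_eq_zero.1 (inner_self_eq_zero.1 h2)

end mk

section total

variable {ι : Type*} [Fintype ι] {Ω : ι → Type*} [∀ i, MeasurableSpace (Ω i)]
  (μ : ∀ i, Measure (Ω i)) [∀ i, SigmaFinite (μ i)]

lemma eq_zero_of_inner_tens (F : Lp ℝ 2 (Measure.pi μ)) (hF : ∀ u, ⟪F, tens μ u⟫_ℝ = 0) :
    F = 0 := by
  classical
  have hrect : ∀ A : ∀ i, Set (Ω i), (∀ i, MeasurableSet (A i)) → (∀ i, μ i (A i) ≠ ∞) →
      ∫ x in Set.univ.pi A, F x ∂(Measure.pi μ) = 0 := by
    intro A hA hA'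
    have h1 := hF (fun i => indicatorConstLp 2 (hA i) (hA' i) (1 : ℝ))
    rw [L2.inner_def] at h1
    rw [← h1, ← integral_indicator (MeasurableSet.univ_pi hA)]
    apply integral_congr_ae
    have hA2 : ∀ i, (fun p : ∀ i, Ω i => (indicatorConstLp 2 (hA i) (hA' i) (1 : ℝ) : Ω i → ℝ) (p i))
        =ᵐ[Measure.pi μ] fun p => (A i).indicator (fun _ => (1 : ℝ)) (p i) := fun i =>
      (Measure.quasiMeasurePreserving_eval μ i).ae_eq_comp indicatorConstLp_coeFn
    filter_upwards [tens_coe μ (fun i => indicatorConstLp 2 (hA i) (hA' i) (1 : ℝ)),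
      ae_all_iff.2 hA2] with p h2 h3
    rw [h2, Finset.prod_congr rfl (fun i _ => h3 i)]
    by_cases hp : p ∈ Set.univ.pi A
    · rw [Set.indicator_of_mem hp, Finset.prod_eq_one]
      · simp
      · intro i _
        rw [Set.indicator_of_mem (hp i (Set.mem_univ i))]
    · rw [Set.indicator_of_notMem hp]
      simp only [Set.mem_pi, Set.mem_univ, true_imp_iff, not_forall] at hp
      obtain ⟨i, hi⟩ := hp
      rw [Finset.prod_eq_zero (Finset.mem_univ i) (Set.indicator_of_notMem hi _)]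
      simp
  set B : ℕ → Set (∀ i, Ω i) := fun n => Set.univ.pi (fun i => spanningSets (μ i) n) with hB
  have hBm : ∀ n, MeasurableSet (B n) := fun n =>
    MeasurableSet.univ_pi (fun i => measurableSet_spanningSets (μ i) n)
  have hBf : ∀ n, Measure.pi μ (B n) ≠ ∞ := by
    intro n
    rw [hB, Measure.pi_pi]
    exact ENNReal.prod_ne_top (fun i _ => (measure_spanningSets_lt_top (μ i) n).ne)
  have hint : ∀ n, Integrable (F : (∀ i, Ω i) → ℝ) ((Measure.pi μ).restrict (B n)) := by
    intro n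
    have : IsFiniteMeasure ((Measure.pi μ).restrict (B n)) :=
      ⟨by rw [Measure.restrict_apply_univ]; exact (hBf n).lt_top⟩
    exact ((Lp.memLp F).restrict (B n)).integrable (by norm_num)
  have key : ∀ n, ∀ S, MeasurableSet S →
      ∫ x in S, F x ∂((Measure.pi μ).restrict (B n)) = 0 := by
    intro n S hS
    have hbox : ∀ A : ∀ i, Set (Ω i), (∀ i, MeasurableSet (A i)) →
        ∫ x in Set.univ.pi A, F x ∂((Measure.pi μ).restrict (B n)) = 0 := by
      intro A hA
      rw [Measure.restrict_restrict (MeasurableSet.univ_pi hA), hB, ← Set.pi_inter_distrib]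
      exact hrect _ (fun i => (hA i).inter (measurableSet_spanningSets (μ i) n))
        (fun i => ((measure_mono Set.inter_subset_right).trans_lt
          (measure_spanningSets_lt_top (μ i) n)).ne)
    refine MeasurableSpace.induction_on_inter
      (C := fun S _ => ∫ x in S, F x ∂((Measure.pi μ).restrict (B n)) = 0)
      generateFrom_pi.symm isPiSystem_pi ?_ ?_ ?_ ?_ S hS
    · simp
    · rintro _ ⟨A, hA, rfl⟩
      exact hbox A (fun i => hA i (Set.mem_univ i))
    · intro S hS h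
      have h1 := integral_add_compl hS (hint n)
      have h2 := hbox (fun _ => Set.univ) (fun _ => MeasurableSet.univ)
      rw [Set.pi_univ, setIntegral_univ] at h2
      rw [h, h2, zero_add] at h1
      exact h1
    · intro f hd hm hf
      rw [integral_iUnion hm hd (hint n).integrableOn]
      simp [hf]
  have h0 : ∀ n, ∀ᵐ x ∂(Measure.pi μ), x ∈ B n → F x = 0 := by
    intro n
    have h1 : (F : (∀ i, Ω i) → ℝ) =ᵐ[(Measure.pi μ).restrict (B n)] 0 :=
      (hint n).ae_eq_zero_of_forall_setIntegral_eq_zero (fun s hs _ => key n s hs)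
    exact (ae_restrict_iff' (hBm n)).1 h1
  rw [Lp.eq_zero_iff_ae_eq_zero]
  filter_upwards [ae_all_iff.2 h0] with x hx
  have h1 : ∀ i, ∃ n, x i ∈ spanningSets (μ i) n := by
    intro i
    have := iUnion_spanningSets (μ i)
    have h2 : x i ∈ ⋃ n, spanningSets (μ i) n := by rw [this]; exact Set.mem_univ _
    exact Set.mem_iUnion.1 h2
  choose n hn using h1
  refine hx (Finset.univ.sup n) ?_
  intro i _
  exact monotone_spanningSets (μ i) (Finset.le_sup (Finset.mem_univ i)) (hn i)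

end total

/-! ## All factors one-dimensional -/

section one

variable {ι : Type*} [Fintype ι] {E : ι → Type*} [∀ i, NormedAddCommGroup (E i)]
  [∀ i, InnerProductSpace ℝ (E i)]
  {H : Type*} [NormedAddCommGroup H] [InnerProductSpace ℝ H] [CompleteSpace H]
  {T : MultilinearMap ℝ E H}

lemma converges_of_finrank_one (h : IsHilbertTensor T) (hE : ∀ i, Module.finrank ℝ (E i) = 1)
    (τ : ℕ → ℝ) : WGAConverges (products T) τ := by
  rintro f r ⟨h0, hstep⟩
  have key : ∀ x : H, ∀ φ ∈ products T, x - ⟪x, φ⟫_ℝ • φ = 0 := by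
    rintro x φ ⟨hφ, u, rfl⟩
    apply eq_zero_of_inner h
    rintro g ⟨-, v, rfl⟩
    have hu : ∀ i, u i ≠ 0 := by
      intro i hi
      rw [T.map_coord_zero i hi, norm_zero] at hφ
      exact zero_ne_one hφ
    have hv : ∀ i, ∃ c : ℝ, c • u i = v i := fun i =>
      (finrank_eq_one_iff_of_nonzero' (u i) (hu i)).1 (hE i) (v i)
    choose c hc using hv
    have h1 : T v = (∏ i, c i) • T u := by
      rw [← MultilinearMap.map_smul_univ]
      congr 1
      ext i
      exact (hc i).symm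
    rw [h1, real_inner_smul_right, inner_sub_left, real_inner_smul_left,
      real_inner_self_eq_norm_sq, hφ]
    ring
  have h1 : ∀ m, r (m + 1) = 0 := by
    intro m
    obtain ⟨φ, hφ, -, hs⟩ := hstep m
    rw [hs]
    exact key _ φ hφ
  rw [← tendsto_add_atTop_iff_nat 1]
  simp only [h1, norm_zero]
  exact tendsto_const_nhds

end one

/-! ## Products of measure spaces -/

section L2final

variable {ι : Type*} [Fintype ι] {Ω : ι → Type*} [∀ i, MeasurableSpace (Ω i)]
  (μ : ∀ i, Measure (Ω i)) [∀ i, SigmaFinite (μ i)]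

/-- The multilinear dictionary in `L₂(μ 1 × ... × μ d)`: all functions
`x ↦ u 1 (x 1) ⋯ u d (x d)` of norm one, with `u i` in `L₂(μ i)`. -/
def multilinearDictionary : Set (Lp ℝ 2 (Measure.pi μ)) :=
  {g | ‖g‖ = 1 ∧ ∃ u : ∀ i, Lp ℝ 2 (μ i),
    (g : (∀ i, Ω i) → ℝ) =ᵐ[Measure.pi μ] fun x => ∏ i, u i (x i)}

/-- the multilinear map of the product functions -/
noncomputable def TL : MultilinearMap ℝ (fun i => Lp ℝ 2 (μ i)) (Lp ℝ 2 (Measure.pi μ)) :=
  mkMulti (tens μ) (inner_tens μ)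

lemma TL_apply (u : ∀ i, Lp ℝ 2 (μ i)) : TL μ u = tens μ u := rfl

lemma dict_eq : multilinearDictionary μ = products (TL μ) := by
  ext g
  constructor
  · rintro ⟨h1, u, hu⟩
    refine ⟨h1, u, ?_⟩
    apply Lp.ext
    exact hu.trans (tens_coe μ u).symm
  · rintro ⟨h1, u, rfl⟩
    exact ⟨h1, u, tens_coe μ u⟩

lemma isTensor_TL : IsHilbertTensor (TL μ) where
  inner := inner_tens μ
  dense := by
    rw [Submodule.dense_iff_topologicalClosure_eq_top, Submodule.topologicalClosure_eq_top_iff,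
      Submodule.eq_bot_iff]
    intro F hF
    apply eq_zero_of_inner_tens μ F
    intro u
    rw [Submodule.mem_orthogonal'] at hF
    exact hF _ (Submodule.subset_span ⟨u, rfl⟩)

lemma nontrivial_L2 {Ω : Type*} [MeasurableSpace Ω] (μ : Measure Ω) [SigmaFinite μ] (hμ : μ ≠ 0) :
    Nontrivial (Lp ℝ 2 μ) := by
  by_contra hn
  rw [not_nontrivial_iff_subsingleton] at hn
  apply hμ
  have h1 : ∀ n, μ (spanningSets μ n) = 0 := by
    intro n
    have h2 : indicatorConstLp 2 (measurableSet_spanningSets μ n)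
        (measure_spanningSets_lt_top μ n).ne (1 : ℝ) = 0 := Subsingleton.elim _ _
    have h3 := congrArg norm h2
    rw [norm_zero, norm_indicatorConstLp (by norm_num) (by norm_num), norm_one, one_mul] at h3
    have h4 : μ.real (spanningSets μ n) = 0 := by
      by_contra hne
      have h5 : 0 < μ.real (spanningSets μ n) := lt_of_le_of_ne measureReal_nonneg (Ne.symm hne)
      exact (Real.rpow_pos_of_pos h5 _).ne' h3
    rw [measureReal_eq_zero_iff (measure_spanningSets_lt_top μ n).ne] at h4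
    exact h4
  rw [← Measure.measure_univ_eq_zero, ← iUnion_spanningSets μ]
  exact measure_iUnion_null h1

lemma not_finiteDimensional_leb : ¬ FiniteDimensional ℝ (Lp ℝ 2 leb) := by
  intro h
  have h1 := gg_orthonormal.linearIndependent
  have h2 := h1.finite
  exact not_finite ℕ

end L2final

/-! ## The theorem -/

/-- The classification: for which weakness sequences `τ` the Weak Greedy Algorithm converges for a
dictionary `D` of products of factors from the spaces `E i`. -/
def Classification {ι : Type*} (E : ι → Type*) [∀ i, NormedAddCommGroup (E i)]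
    [∀ i, InnerProductSpace ℝ (E i)] {H : Type*} [NormedAddCommGroup H] [InnerProductSpace ℝ H]
    (D : Set H) : Prop :=
  ∀ τ : ℕ → ℝ, (∀ k, 1 ≤ k → 0 ≤ τ k ∧ τ k ≤ 1) →
    -- at least two infinite-dimensional factors
    ((∃ a b, a ≠ b ∧ ¬ FiniteDimensional ℝ (E a) ∧ ¬ FiniteDimensional ℝ (E b)) →
      (WGAConverges D τ ↔ ¬ ClassV τ)) ∧
    -- at most one infinite-dimensional factor, and a factor of dimension at least two
    ((∀ a b, a ≠ b → FiniteDimensional ℝ (E a) ∨ FiniteDimensional ℝ (E b)) →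
      (∃ i, Module.finrank ℝ (E i) ≠ 1) →
      (¬ Summable (fun k => τ (k + 1) ^ 2) → WGAConverges D τ) ∧
      ((∀ k, 1 ≤ k → τ k < 1) → (WGAConverges D τ ↔ ¬ Summable (fun k => τ (k + 1) ^ 2)))) ∧
    -- all factors one-dimensional
    ((∀ i, Module.finrank ℝ (E i) = 1) → WGAConverges D τ)

theorem classification {ι : Type*} [Fintype ι] (E : ι → Type*) [∀ i, NormedAddCommGroup (E i)]
    [∀ i, InnerProductSpace ℝ (E i)] [∀ i, CompleteSpace (E i)] (hE : ∀ i, Nontrivial (E i))
    {H : Type*} [NormedAddCommGroup H] [InnerProductSpace ℝ H] [CompleteSpace H]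
    (T : MultilinearMap ℝ E H) (hT : IsHilbertTensor T) : Classification E (products T) := by
  classical
  intro τ hτ
  have hτ0 : ∀ k, 0 ≤ τ (k + 1) := fun k => (hτ (k + 1) (by omega)).1
  have hτ1 : ∀ k, τ (k + 1) ≤ 1 := fun k => (hτ (k + 1) (by omega)).2
  refine ⟨?_, ?_, fun h => converges_of_finrank_one hT h τ⟩
  · rintro ⟨a, b, hab, ha, hb⟩
    constructor
    · intro hc hV
      exact not_converges_of_classV hT.inner hE hab ha hb τ hτ0 hτ1 hV hc
    · exact converges_of_not_classV hT hE τ hτ0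
  · rintro hfin ⟨b, hb⟩
    have hsuff : ¬ Summable (fun k => τ (k + 1) ^ 2) → WGAConverges (products T) τ := by
      by_cases hall : ∃ a, ¬ FiniteDimensional ℝ (E a)
      · obtain ⟨a, ha⟩ := hall
        exact converges_of_not_summable hT hE a (fun i hi => (hfin i a hi).resolve_right ha) τ hτ0
      · push Not at hall
        exact converges_of_not_summable hT hE b (fun i _ => hall i) τ hτ0
    refine ⟨hsuff, fun hlt => ⟨fun hc hs => ?_, hsuff⟩⟩
    exact not_converges_of_summable hT.inner hE b hb τ hτ0 (fun k => hlt (k + 1) (by omega)) hs hc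

/-- **Main theorem.**
(1) In `L₂([0,1]^d)`, `d ≥ 2`, the Weak Greedy Algorithm with weakness sequence `τ` converges for
the dictionary of all products of functions of one variable if and only if `τ` is not in Temlyakov's
class `𝒱`. The problem is the case `d = 2`.
(2) The same for `L₂` of a product of finitely many arbitrary σ-finite measure spaces.
(3) The same for the Hilbert tensor product of finitely many arbitrary real Hilbert spaces. -/
theorem result :
    (∀ d : ℕ, 2 ≤ d → ∀ τ : ℕ → ℝ, (∀ k, 1 ≤ k → 0 ≤ τ k ∧ τ k ≤ 1) →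
      (WGAConverges (multilinearDictionary (fun _ : Fin d => leb)) τ ↔ ¬ ClassV τ)) ∧
    (∀ (ι : Type*) [Fintype ι] (Ω : ι → Type*) [∀ i, MeasurableSpace (Ω i)]
      (μ : ∀ i, Measure (Ω i)) [∀ i, SigmaFinite (μ i)], (∀ i, μ i ≠ 0) →
      Classification (fun i => Lp ℝ 2 (μ i)) (multilinearDictionary μ)) ∧
    (∀ (ι : Type*) [Fintype ι] (E : ι → Type*) [∀ i, NormedAddCommGroup (E i)]
      [∀ i, InnerProductSpace ℝ (E i)] [∀ i, CompleteSpace (E i)]
      (H : Type*) [NormedAddCommGroup H] [InnerProductSpace ℝ H] [CompleteSpace H]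
      (T : MultilinearMap ℝ E H), (∀ i, Nontrivial (E i)) → IsHilbertTensor T →
      Classification E (products T)) := by
  refine ⟨?_, ?_, fun ι _ E _ _ _ H _ _ _ T hE hT => classification E hE T hT⟩
  · intro d hd τ hτ
    have hleb : leb ≠ 0 := IsProbabilityMeasure.ne_zero leb
    have h3 : Classification (fun _ : Fin d => Lp ℝ 2 leb)
        (multilinearDictionary (fun _ : Fin d => leb)) := by
      rw [dict_eq]
      exact classification _ (fun i => nontrivial_L2 leb hleb) _ (isTensor_TL _)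
    refine (h3 τ hτ).1 ⟨⟨0, by omega⟩, ⟨1, by omega⟩, ?_, not_finiteDimensional_leb,
      not_finiteDimensional_leb⟩
    simp [Fin.ext_iff]
  · intro ι _ Ω _ μ _ hμ
    rw [dict_eq]
    exact classification _ (fun i => nontrivial_L2 (μ i) (hμ i)) _ (isTensor_TL μ)

end Pool.Agent.Results.MP_d1960f_an.HilbertTensorProducts
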